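import Pool.Agent.Helper1K1.HE.Thin

/-!
# A quiver of type `D_4`

The quiver `b → c ← d`, `c → a` and an exceptional collection of four of its representations.
-/

set_option autoImplicit false

namespace Pool.Agent.Helper1K1.HE

open CategoryTheory Abelian Limits

/-- the vertices -/
inductive V4 | a | b | c | d

instance : Finite V4 := by
  have : Function.Surjective (fun i : Fin 4 => match i with
    | 0 => V4.a | 1 => V4.b | 2 => V4.c | 3 => V4.d) := by
    intro x
    cases x
    · exact ⟨0, rfl⟩
    · exact ⟨1, rfl⟩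
    · exact ⟨2, rfl⟩
    · exact ⟨3, rfl⟩
  exact Finite.of_surjective _ this

/-- the arrows `b → c`, `d → c`, `c → a` -/
inductive Arr : V4 → V4 → Type
  | beta : Arr V4.b V4.c
  | delta : Arr V4.d V4.c
  | gamma : Arr V4.c V4.a

instance : Quiver.{0} V4 := ⟨Arr⟩

instance (x y : V4) : Finite (x ⟶ y) := by
  have : Subsingleton (Arr x y) := ⟨fun p q => by cases p <;> cases q <;> rfl⟩
  exact Finite.of_subsingleton (α := Arr x y)

/-- the rank function -/
def rk : V4 → ℕ
  | V4.a => 0 | V4.b => 2 | V4.c => 1 | V4.d => 2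

lemma rk_path {x y : V4} (p : Quiver.Path x y) : rk y + p.length = rk x := by
  induction p with
  | nil => rfl
  | cons p e ih =>
    rw [Quiver.Path.length_cons, ← ih]
    have he : ∀ {y z : V4} (e : Arr y z), rk z + 1 = rk y := by
      intro y z e
      cases e <;> rfl
    have := he e
    omega

lemma acyclic4 {x : V4} (p : Quiver.Path x x) : p = Quiver.Path.nil := by
  have := rk_path p
  exact Quiver.Path.eq_nil_of_length_zero p (by omega)

lemma arr_b {x : V4} (e : Arr x V4.b) : False := by cases e

lemma arr_d {x : V4} (e : Arr x V4.d) : False := by cases e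

lemma arr_a {x : V4} (e : Arr x V4.a) : x = V4.c := by cases e; rfl

lemma arr_c {x : V4} (e : Arr x V4.c) : x = V4.b ∨ x = V4.d := by
  cases e
  · exact Or.inl rfl
  · exact Or.inr rfl

lemma arr_sub {x y : V4} (e e' : Arr x y) : e = e' := by
  cases e <;> cases e' <;> rfl

lemma path_b {x : V4} (p : Quiver.Path x V4.b) : x = V4.b := by
  cases p with
  | nil => rfl
  | cons p e => exact (arr_b e).elim

lemma path_d {x : V4} (p : Quiver.Path x V4.d) : x = V4.d := by
  cases p with
  | nil => rfl
  | cons p e => exact (arr_d e).elim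

lemma path_c {x : V4} (p : Quiver.Path x V4.c) : x ≠ V4.a := by
  rintro rfl
  have := rk_path p
  simp [rk] at this

lemma path_unique {x y : V4} (p q : Quiver.Path x y) : p = q := by
  induction p with
  | nil => exact (acyclic4 q).symm
  | @cons u v p e ih =>
    cases q with
    | nil =>
      have := rk_path (p.cons e)
      rw [Quiver.Path.length_cons] at this
      omega
    | @cons u' _ q e' =>
      have hu : u = u' := by
        cases v
        · rw [arr_a e, arr_a e']
        · exact (arr_b e).elim
        · rcases arr_c e with h | h <;> rcases arr_c e' with h' | h'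
          · rw [h, h']
          · subst h h'
            have h1 := path_b p
            have h2 := path_d q
            rw [h1] at h2
            cases h2
          · subst h h'
            have h1 := path_d p
            have h2 := path_b q
            rw [h1] at h2
            cases h2
          · rw [h, h']
        · exact (arr_d e).elim
      subst hu
      rw [ih q, arr_sub e e']

instance : Quiver.IsThin (Paths V4) := fun _ _ => ⟨fun p q => path_unique p q⟩

/-- the vertex `x` as an object of the path category -/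
def ob (x : V4) : Paths V4 := x

lemma root : Root (ob V4.a) := by
  intro x
  cases x
  · exact ⟨Quiver.Path.nil⟩
  · exact ⟨(Quiver.Path.nil.cons Arr.beta).cons Arr.gamma⟩
  · exact ⟨Quiver.Path.nil.cons Arr.gamma⟩
  · exact ⟨(Quiver.Path.nil.cons Arr.delta).cons Arr.gamma⟩

/-- the sets of vertices of the four representations and of the additional projective one -/
def Ts (x : Paths V4) : Paths V4 → Prop := fun z => Nonempty (x ⟶ z)

lemma up_Ts (x : Paths V4) : Up (Ts x) := fun _ _ f ⟨g⟩ => ⟨g ≫ f⟩

lemma up_true : Up (fun _ : Paths V4 => True) := fun _ _ _ _ => trivial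

/-- the sets of vertices of the four representations -/
def T4 : Fin 4 → Paths V4 → Prop
  | 0 => Ts (ob V4.a)
  | 1 => Ts (ob V4.b)
  | 2 => Ts (ob V4.d)
  | 3 => fun _ => True

lemma up4 : ∀ i, Up (T4 i)
  | 0 => up_Ts _
  | 1 => up_Ts _
  | 2 => up_Ts _
  | 3 => up_true

lemma T4_a : ∀ i, T4 i (ob V4.a)
  | 0 => root _
  | 1 => root _
  | 2 => root _
  | 3 => trivial

/-- the inclusion relation -/
def le4 (i j : Fin 4) : Prop := i = j ∨ i = 0 ∨ j = 3

instance (i j : Fin 4) : Decidable (le4 i j) := inferInstanceAs (Decidable (_ ∨ _ ∨ _))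

lemma Ts_a {z : Paths V4} (h : Ts (ob V4.a) z) : z = ob V4.a := by
  obtain ⟨p⟩ := h
  have h1 := rk_path p
  have h2 : rk z = 0 := by
    have : rk V4.a = 0 := rfl
    have h3 : rk z + p.length = 0 := h1
    omega
  have h3 : ∀ z : V4, rk z = 0 → z = V4.a := by
    intro z hz
    cases z
    · rfl
    · cases hz
    · cases hz
    · cases hz
  exact h3 z h2

lemma T4_of_le : ∀ {i j : Fin 4}, le4 i j → ∀ x, T4 i x → T4 j x := by
  intro i j h x hx
  rcases h with h | h | h
  · rw [← h]; exact hx
  · subst h
    have := Ts_a hx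
    rw [this]
    exact T4_a j
  · subst h
    trivial

lemma T4_not : ∀ {i j : Fin 4}, ¬ le4 i j → ∃ y, T4 i y ∧ ¬ T4 j y := by
  have hb : ∀ x, Ts (ob x) (ob V4.b) → x = V4.b := fun x ⟨p⟩ => path_b p
  have hd : ∀ x, Ts (ob x) (ob V4.d) → x = V4.d := fun x ⟨p⟩ => path_d p
  have ib : T4 1 (ob V4.b) := ⟨𝟙 _⟩
  have id' : T4 2 (ob V4.d) := ⟨𝟙 _⟩
  intro i j h
  unfold le4 at h
  push Not at h
  obtain ⟨h1, h2, h3⟩ := h
  fin_cases i <;> fin_cases j <;> simp at h1 h2 h3
  · exact ⟨ob V4.b, ib, fun h => by cases hb _ h⟩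
  · exact ⟨ob V4.b, ib, fun h => by cases hb _ h⟩
  · exact ⟨ob V4.d, id', fun h => by cases hd _ h⟩
  · exact ⟨ob V4.d, id', fun h => by cases hd _ h⟩
  · exact ⟨ob V4.b, trivial, fun h => by cases hb _ h⟩
  · exact ⟨ob V4.d, trivial, fun h => by cases hd _ h⟩
  · exact ⟨ob V4.b, trivial, fun h => by cases hb _ h⟩

variable (k : Type) [Field k]

/-- the four representations -/
noncomputable def chi (i : Fin 4) : Rep k V4 := thin k (T4 i) (up4 i)

/-- the projective representation at `c` -/
noncomputable def Pc : Rep k V4 := thin k (Ts (ob V4.c)) (up_Ts _)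

variable {k}

lemma hom_zero {i j : Fin 4} (h : ¬ le4 i j) (f : chi k i ⟶ chi k j) : f = 0 := by
  obtain ⟨y, h1, h2⟩ := T4_not h
  exact eq_zero (T4_a i) root h1 h2 f

/-- the inclusions -/
noncomputable def inc4 {i j : Fin 4} (h : le4 i j) : chi k i ⟶ chi k j :=
  inc (up4 i) (up4 j) (T4_of_le h)

lemma hom_smul {i j : Fin 4} (h : le4 i j) (f : chi k i ⟶ chi k j) :
    ∃ c : k, f = c • inc4 h :=
  ⟨_, eq_smul_inc (T4_a i) root (T4_of_le h) f⟩

lemma inc4_ne {i j : Fin 4} (h : le4 i j) : (inc4 h : chi k i ⟶ chi k j) ≠ 0 :=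
  inc_ne_zero _ _ _ (T4_a i)

lemma inc4_comp {i j l : Fin 4} (h : le4 i j) (h' : le4 j l) (h'' : le4 i l) :
    (inc4 h : chi k i ⟶ chi k j) ≫ inc4 h' = inc4 h'' := inc_comp _ _ _ _ _

lemma inc4_self (i : Fin 4) (h : le4 i i) : (inc4 h : chi k i ⟶ chi k i) = 𝟙 _ := inc_self _ _

lemma indec (i : Fin 4) : Indecomposable (chi k i) := indecomposable_thin _ (T4_a i) root

lemma proj : ∀ i : Fin 4, i ≠ 3 → Projective (chi k i)
  | 0, _ => projective_thin _ _
  | 1, _ => projective_thin _ _
  | 2, _ => projective_thin _ _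
  | 3, h => absurd rfl h

/-! ### the short exact sequence -/

section dsum

variable {J : Type} [Category.{0} J] (F G : J ⥤ ModuleCat.{0} k)

/-- direct sum of functors -/
def dsum : J ⥤ ModuleCat.{0} k where
  obj x := ModuleCat.of k (F.obj x × G.obj x)
  map f := ModuleCat.ofHom (LinearMap.prodMap (F.map f).hom (G.map f).hom)
  map_id x := by
    apply ModuleCat.hom_ext
    apply LinearMap.ext
    rintro ⟨u, w⟩
    change (F.map (𝟙 x) u, G.map (𝟙 x) w) = (u, w)
    rw [F.map_id, G.map_id]; rfl
  map_comp f g := by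
    apply ModuleCat.hom_ext
    apply LinearMap.ext
    rintro ⟨u, w⟩
    change (F.map (f ≫ g) u, G.map (f ≫ g) w) = (F.map g (F.map f u), G.map g (G.map f w))
    rw [F.map_comp, G.map_comp]; rfl

/-- left inclusion -/
def dinl : F ⟶ dsum F G where
  app x := ModuleCat.ofHom (LinearMap.inl k (F.obj x) (G.obj x))
  naturality x y f := by
    ext v
    change (F.map f v, (0 : G.obj y)) = (F.map f v, G.map f 0)
    rw [map_zero]

/-- right inclusion -/
def dinr : G ⟶ dsum F G where
  app x := ModuleCat.ofHom (LinearMap.inr k (F.obj x) (G.obj x))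
  naturality x y f := by
    ext v
    change ((0 : F.obj y), G.map f v) = (F.map f 0, G.map f v)
    rw [map_zero]

/-- left projection -/
def dfst : dsum F G ⟶ F where
  app x := ModuleCat.ofHom (LinearMap.fst k (F.obj x) (G.obj x))
  naturality x y f := by ext v; rfl

/-- right projection -/
def dsnd : dsum F G ⟶ G where
  app x := ModuleCat.ofHom (LinearMap.snd k (F.obj x) (G.obj x))
  naturality x y f := by ext v; rfl

lemma dsum_total : dfst F G ≫ dinl F G + dsnd F G ≫ dinr F G = 𝟙 _ := by
  apply NatTrans.ext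
  funext x
  apply ModuleCat.hom_ext
  apply LinearMap.ext
  rintro ⟨u, w⟩
  change (u, (0 : G.obj x)) + ((0 : F.obj x), w) = (u, w)
  rw [Prod.mk_add_mk, add_zero, zero_add]

lemma proj_dsum [Projective F] [Projective G] : Projective (dsum F G) := by
  constructor
  intro E X f e he
  refine ⟨dfst F G ≫ Projective.factorThru (dinl F G ≫ f) e +
    dsnd F G ≫ Projective.factorThru (dinr F G ≫ f) e, ?_⟩
  rw [Preadditive.add_comp, Category.assoc, Category.assoc, Projective.factorThru_comp,
    Projective.factorThru_comp, ← Category.assoc, ← Category.assoc, ← Preadditive.add_comp,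
    dsum_total, Category.id_comp]

end dsum

lemma exact_of_eval {J A : Type*} [Category* J] [Category* A] [Abelian A]
    (S : ShortComplex (J ⥤ A)) (h : ∀ j, (S.map ((evaluation J A).obj j)).Exact) : S.Exact := by
  rw [ShortComplex.exact_iff_isZero_homology]
  rw [Functor.isZero_iff]
  intro j
  exact ((ShortComplex.exact_iff_isZero_homology _).1 (h j)).of_iso
    (S.mapHomologyIso ((evaluation J A).obj j)).symm

end Pool.Agent.Helper1K1.HE
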