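import Mathlib

/-!
# Hom-Ext quivers of exceptional collections

Representations of a quiver `Q` over a field `k`, exceptional collections, and the Hom-Ext quiver
with relations of an exceptional collection.
-/

set_option autoImplicit false

namespace Pool.Agent.Helper1K1.HE

open CategoryTheory Abelian

/-- The category of the representations over the field `k` of the quiver `Q`, which is the
category of the modules over the path algebra of `Q` if `Q` is finite. -/
abbrev Rep (k : Type) [Field k] (Q : Type) [Quiver.{0} Q] := Paths Q ⥤ ModuleCat.{0} k

/-- The `Ext` groups of this category are available. -/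
instance instHasExt (k : Type) [Field k] (Q : Type) [Quiver.{0} Q] : HasExt.{1} (Rep k Q) :=
  HasExt.standard _

variable {k : Type} [Field k] {Q : Type} [Quiver.{0} Q]

/-- The group `Ext^n(M, N)`, which is `Hom(M, N)` for `n = 0`. -/
def EXT (M N : Rep k Q) (n : ℕ) : Type 1 := Ext M N n

/-- Mathlib's group structure on `Ext^n(M, N)`. -/
noncomputable instance instGroup (M N : Rep k Q) (n : ℕ) : AddCommGroup (EXT M N n) :=
  inferInstanceAs (AddCommGroup (Ext M N n))

/-- Mathlib's vector space structure on `Ext^n(M, N)`. -/
noncomputable instance instModule (M N : Rep k Q) (n : ℕ) : Module k (EXT M N n) :=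
  inferInstanceAs (Module k (Ext M N n))

/-- The element of `Ext^0(M, N)` given by a morphism. -/
noncomputable def ofHom {M N : Rep k Q} (f : M ⟶ N) : EXT M N 0 := Ext.mk₀ f

/-- The composition of an element of `Ext^a(M, N)` and an element of `Ext^b(N, L)`. -/
noncomputable def comp {M N L : Rep k Q} {a b n : ℕ} (f : EXT M N a) (g : EXT N L b)
    (h : a + b = n) : EXT M L n := Ext.comp f g h

/-- A representation is exceptional if it is finite-dimensional and indecomposable and has no
self-extensions. -/
def IsExceptional (M : Rep k Q) : Prop :=
  (∀ x, Module.Finite k (M.obj x)) ∧ Indecomposable M ∧ Subsingleton (EXT M M 1)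

/-- `(E_1, ..., E_m)` is an exceptional sequence if all `E_i` are exceptional and
`Hom(E_i, E_j) = 0 = Ext^1(E_i, E_j)` for all `j < i`. -/
def IsExceptionalSequence {m : ℕ} (E : Fin m → Rep k Q) : Prop :=
  (∀ i, IsExceptional (E i)) ∧
    ∀ i j, j < i → Subsingleton (E i ⟶ E j) ∧ Subsingleton (EXT (E i) (E j) 1)

/-- An exceptional collection is a family with an ordering which is an exceptional sequence. -/
def IsExceptionalCollection {m : ℕ} (χ : Fin m → Rep k Q) : Prop :=
  ∃ σ : Equiv.Perm (Fin m), IsExceptionalSequence (χ ∘ σ)

/-- The family `v` is a basis of the subspace `U` modulo the subspace `W` of `U`: the classes of its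
members modulo `W` are linearly independent, and its members and `W` span `U`. -/
def IsBasisModulo {V : Type 1} [AddCommGroup V] [Module k V] {ι : Type} (v : ι → V)
    (U W : Submodule k V) : Prop :=
  LinearIndependent k (fun a => W.mkQ (v a)) ∧ Submodule.span k (Set.range v) ⊔ W = U

variable {m : ℕ} (χ : Fin m → Rep k Q)

/-- The radical maps of degree `n` from `X_i` to `X_j`: in degree `0` these are the linear
combinations of the morphisms `X_i → X_j` which are not isomorphisms, in degree `n ≥ 1` all
elements of `Ext^n(X_i, X_j)`. -/
noncomputable def rad (i j : Fin m) : (n : ℕ) → Submodule k (EXT (χ i) (χ j) n)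
  | 0 => Submodule.span k {x | ∃ f : χ i ⟶ χ j, ¬ IsIso f ∧ x = ofHom f}
  | (_ + 1) => ⊤

/-- The span of the compositions of two radical maps through members of the family. -/
noncomputable def radSq (i j : Fin m) (n : ℕ) : Submodule k (EXT (χ i) (χ j) n) :=
  Submodule.span k {x | ∃ (l : Fin m) (a b : ℕ) (h : a + b = n), ∃ f ∈ rad χ i l a,
    ∃ g ∈ rad χ l j b, x = comp f g h}

/-- The data of the Hom-Ext quiver of the family `χ`: the arrows from `X_i` to `X_j` are of two
kinds and correspond to elements of `Hom(X_i, X_j)` and of `Ext^1(X_i, X_j)` which form bases of the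
radical maps modulo those which are combinations of compositions of two radical maps through
members of the family. -/
structure HomExtQuiver where
  /-- the arrows which correspond to morphisms -/
  H : Fin m → Fin m → Type
  /-- the arrows which correspond to extensions -/
  E : Fin m → Fin m → Type
  /-- the morphism of an arrow of the first kind -/
  h : (i j : Fin m) → H i j → EXT (χ i) (χ j) 0
  /-- the extension of an arrow of the second kind -/
  e : (i j : Fin m) → E i j → EXT (χ i) (χ j) 1
  h_basis : ∀ i j, IsBasisModulo (h i j) (rad χ i j 0) (radSq χ i j 0)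
  e_basis : ∀ i j, IsBasisModulo (e i j) (rad χ i j 1) (radSq χ i j 1)

variable {χ}

namespace HomExtQuiver

variable (P : HomExtQuiver χ)

/-- The vertices of the Hom-Ext quiver are the members of the family. -/
def Vertex (_ : HomExtQuiver χ) : Type := Fin m

/-- The Hom-Ext quiver. -/
instance instQuiver : Quiver.{0} P.Vertex := ⟨fun i j => P.H i j ⊕ P.E i j⟩

/-- The member of the family at a vertex. -/
def obj (v : P.Vertex) : Rep k Q := χ v

/-- The degree of an arrow: `0` for morphisms, `1` for extensions. -/
def deg {i j : P.Vertex} : (i ⟶ j) → ℕ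
  | Sum.inl _ => 0
  | Sum.inr _ => 1

/-- The element of `Ext^n(X_i, X_j)` for an arrow of degree `n`. -/
noncomputable def val {i j : P.Vertex} : (a : i ⟶ j) → EXT (P.obj i) (P.obj j) (P.deg a)
  | Sum.inl a => P.h i j a
  | Sum.inr a => P.e i j a

/-- The degree of a path. -/
def pathDeg {i : P.Vertex} : {j : P.Vertex} → Quiver.Path i j → ℕ
  | _, .nil => 0
  | _, .cons p a => pathDeg p + P.deg a

/-- The composition of the elements of the arrows of a path. -/
noncomputable def pathVal {i : P.Vertex} : {j : P.Vertex} → (p : Quiver.Path i j) →
    EXT (P.obj i) (P.obj j) (P.pathDeg p)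
  | _, .nil => ofHom (𝟙 _)
  | _, .cons p a => comp (pathVal p) (P.val a) rfl

/-- The value of a path in degree `n`, zero if the path has another degree. -/
noncomputable def pathValIn {i j : P.Vertex} (n : ℕ) (p : Quiver.Path i j) :
    EXT (P.obj i) (P.obj j) n :=
  if h : P.pathDeg p = n then h ▸ P.pathVal p else 0

/-- The value in degree `n` of a linear combination of paths. -/
noncomputable def value {i j : P.Vertex} (n : ℕ) :
    (Quiver.Path i j →₀ k) →ₗ[k] EXT (P.obj i) (P.obj j) n :=
  Finsupp.linearCombination k (P.pathValIn n)

/-- The ideal `R` of the Hom-Ext quiver: the linear combinations of paths from `i` to `j` whose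
values in the two degrees `0` and `1` vanish. -/
noncomputable def R (i j : P.Vertex) : Submodule k (Quiver.Path i j →₀ k) :=
  LinearMap.ker (P.value 0) ⊓ LinearMap.ker (P.value 1)

/-- The ideal `R` is generated by monomial relations: for some set `S` of paths of length at least
two, `R` is the ideal generated by `S`, that is the span of the paths with a subpath in `S`. -/
def IsMonomial : Prop :=
  ∃ S : ∀ i j : P.Vertex, Set (Quiver.Path i j), (∀ i j, ∀ p ∈ S i j, 2 ≤ p.length) ∧
    ∀ i j : P.Vertex, P.R i j = Submodule.span k
      {x | ∃ (i' j' : P.Vertex) (q : Quiver.Path i i') (p : Quiver.Path i' j')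
        (r : Quiver.Path j' j), p ∈ S i' j' ∧ x = Finsupp.single (q.comp (p.comp r)) 1}

end HomExtQuiver

end Pool.Agent.Helper1K1.HE
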