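import Pool.Agent.Helper1K1.HE.D4

/-!
# The extensions between the four representations vanish
-/

set_option autoImplicit false

namespace Pool.Agent.Helper1K1.HE

open CategoryTheory Abelian Limits

section

variable {k : Type} [Field k] {J : Type} [Category.{0} J] (F G : J ⥤ ModuleCat.{0} k)

lemma dinl_dfst : dinl F G ≫ dfst F G = 𝟙 _ := by
  ext x v; rfl

lemma dinr_dsnd : dinr F G ≫ dsnd F G = 𝟙 _ := by
  ext x v; rfl

lemma dinl_dsnd : dinl F G ≫ dsnd F G = 0 := by
  ext x v; rfl

lemma dinr_dfst : dinr F G ≫ dfst F G = 0 := by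
  ext x v; rfl

end

variable (k : Type) [Field k]

lemma c_sub_b {x : Paths V4} (h : Ts (ob V4.c) x) : T4 1 x := by
  obtain ⟨p⟩ := h
  exact ⟨(show ob V4.b ⟶ ob V4.c from Quiver.Path.nil.cons Arr.beta) ≫ p⟩

lemma c_sub_d {x : Paths V4} (h : Ts (ob V4.c) x) : T4 2 x := by
  obtain ⟨p⟩ := h
  exact ⟨(show ob V4.d ⟶ ob V4.c from Quiver.Path.nil.cons Arr.delta) ≫ p⟩

/-- the inclusion of `P_c` into `P_b` -/
noncomputable def incb : Pc k ⟶ chi k 1 := inc (up_Ts _) (up4 1) (fun _ h => c_sub_b h)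

/-- the inclusion of `P_c` into `P_d` -/
noncomputable def incd : Pc k ⟶ chi k 2 := inc (up_Ts _) (up4 2) (fun _ h => c_sub_d h)

/-- the first map -/
noncomputable def mf : Pc k ⟶ dsum (chi k 1) (chi k 2) :=
  incb k ≫ dinl _ _ - incd k ≫ dinr _ _

/-- the second map -/
noncomputable def mg : dsum (chi k 1) (chi k 2) ⟶ chi k 3 :=
  dfst _ _ ≫ inc4 (show le4 1 3 by decide) + dsnd _ _ ≫ inc4 (show le4 2 3 by decide)

lemma mf_fst : mf k ≫ dfst _ _ = incb k := by
  rw [mf, Preadditive.sub_comp, Category.assoc, Category.assoc, dinl_dfst, dinr_dfst,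
    Category.comp_id, comp_zero, sub_zero]

lemma mf_snd : mf k ≫ dsnd _ _ = - incd k := by
  rw [mf, Preadditive.sub_comp, Category.assoc, Category.assoc, dinl_dsnd, dinr_dsnd,
    Category.comp_id, comp_zero, zero_sub]

lemma mf_mg : mf k ≫ mg k = 0 := by
  rw [mg, Preadditive.comp_add, ← Category.assoc, ← Category.assoc, mf_fst, mf_snd]
  rw [Preadditive.neg_comp]
  have h : incb k ≫ inc4 (show le4 1 3 by decide) = incd k ≫ inc4 (show le4 2 3 by decide) :=
    (inc_comp (up_Ts _) (up4 1) (up4 3) _ _).trans (inc_comp (up_Ts _) (up4 2) (up4 3) _ _).symm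
  rw [h, add_neg_cancel]

/-- the short complex -/
noncomputable def scx : ShortComplex (Rep k V4) := ShortComplex.mk (mf k) (mg k) (mf_mg k)

/-- the value of `mg` -/
lemma sc_mg {x : Paths V4} (v : (dsum (chi k 1) (chi k 2)).obj x) :
    sc ((mg k).app x v) = sc (S := T4 1) (hS := up4 1) (show (chi k 1).obj x × (chi k 2).obj x from v).1 +
      sc (S := T4 2) (hS := up4 2) (show (chi k 1).obj x × (chi k 2).obj x from v).2 := rfl

lemma sc_mf1 {x : Paths V4} (v : (Pc k).obj x) :
    sc (S := T4 1) (hS := up4 1) (show (chi k 1).obj x × (chi k 2).obj x from (mf k).app x v).1 =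
      sc v := by
  have h1 := congrArg (fun g => g v) (congrArg ModuleCat.Hom.hom
    (congrArg (fun g : Pc k ⟶ chi k 1 => g.app x) (mf_fst k)))
  exact congrArg sc h1

lemma sc_mf2 {x : Paths V4} (v : (Pc k).obj x) :
    sc (S := T4 2) (hS := up4 2) (show (chi k 1).obj x × (chi k 2).obj x from (mf k).app x v).2 =
      - sc v := by
  have h1 := congrArg (fun g => g v) (congrArg ModuleCat.Hom.hom
    (congrArg (fun g : Pc k ⟶ chi k 2 => g.app x) (mf_snd k)))
  exact congrArg sc h1

lemma both {x : Paths V4} (h1 : T4 1 x) (h2 : T4 2 x) : Ts (ob V4.c) x := by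
  obtain ⟨p⟩ := h1
  obtain ⟨q⟩ := h2
  have h3 : ∀ y : V4, ∀ p : Quiver.Path V4.b y, ∀ q : Quiver.Path V4.d y,
      Nonempty (Quiver.Path V4.c y) := by
    intro y p q
    cases y
    · exact ⟨Quiver.Path.nil.cons Arr.gamma⟩
    · cases path_b q
    · exact ⟨Quiver.Path.nil⟩
    · cases path_d p
  exact h3 x p q

lemma epi_mg : Epi (mg k) := by
  rw [NatTrans.epi_iff_epi_app]
  intro x
  rw [ModuleCat.epi_iff_surjective]
  intro w
  have hx : ∀ x : V4, T4 1 x ∨ T4 2 x := by
    intro x
    cases x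
    · exact Or.inl ⟨(Quiver.Path.nil.cons Arr.beta).cons Arr.gamma⟩
    · exact Or.inl ⟨Quiver.Path.nil⟩
    · exact Or.inl ⟨Quiver.Path.nil.cons Arr.beta⟩
    · exact Or.inr ⟨Quiver.Path.nil⟩
  rcases hx x with h | h
  · refine ⟨(show (chi k 1).obj x × (chi k 2).obj x from
      (el (up4 1) h (sc (S := T4 3) (hS := up4 3) w), 0)), ?_⟩
    apply sc_injective (S := T4 3) (hS := up4 3)
    refine (sc_mg k _).trans ?_
    change sc (S := T4 3) (hS := up4 3) w + sc (S := T4 2) (hS := up4 2) 0 = _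
    rw [map_zero, add_zero]
  · refine ⟨(show (chi k 1).obj x × (chi k 2).obj x from
      (0, el (up4 2) h (sc (S := T4 3) (hS := up4 3) w))), ?_⟩
    apply sc_injective (S := T4 3) (hS := up4 3)
    refine (sc_mg k _).trans ?_
    change sc (S := T4 1) (hS := up4 1) 0 + sc (S := T4 3) (hS := up4 3) w = _
    rw [map_zero, zero_add]

lemma mono_mf : Mono (mf k) := by
  rw [NatTrans.mono_iff_mono_app]
  intro x
  rw [ModuleCat.mono_iff_injective]
  intro v w h
  apply sc_injective
  rw [← sc_mf1, ← sc_mf1, h]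

lemma exact_aux (x : Paths V4) (v : (dsum (chi k 1) (chi k 2)).obj x)
    (hv : (mg k).app x v = 0) : ∃ u : (Pc k).obj x, (mf k).app x u = v := by
  have hv' : sc ((mg k).app x v) = 0 := by
    have := congrArg (sc (S := T4 3) (hS := up4 3)) hv
    exact this.trans (map_zero _)
  have hv' := (sc_mg k v).symm.trans hv'
  set v1 : (chi k 1).obj x := (show (chi k 1).obj x × (chi k 2).obj x from v).1 with hv1
  set v2 : (chi k 2).obj x := (show (chi k 1).obj x × (chi k 2).obj x from v).2 with hv2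
  by_cases h : Ts (ob V4.c) x
  · refine ⟨el (up_Ts _) h (sc (S := T4 1) (hS := up4 1) v1), ?_⟩
    refine Prod.ext (α := (chi k 1).obj x) (β := (chi k 2).obj x) ?_ ?_
    · apply sc_injective
      exact sc_mf1 k _
    · apply sc_injective
      refine (sc_mf2 k _).trans ?_
      change - sc (S := T4 1) (hS := up4 1) v1 = sc (S := T4 2) (hS := up4 2) v2
      linear_combination -hv'
  · refine ⟨0, ?_⟩
    have h12 : ¬ T4 1 x ∨ ¬ T4 2 x := by
      by_contra hcon
      push Not at hcon
      exact h (both hcon.1 hcon.2)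
    have h1 : sc (S := T4 1) (hS := up4 1) v1 = 0 ∧ sc (S := T4 2) (hS := up4 2) v2 = 0 := by
      rcases h12 with h | h
      · have := sc_zero_of (S := T4 1) (hS := up4 1) v1 h
        refine ⟨this, ?_⟩
        rw [this, zero_add] at hv'
        exact hv'
      · have := sc_zero_of (S := T4 2) (hS := up4 2) v2 h
        refine ⟨?_, this⟩
        rw [this, add_zero] at hv'
        exact hv'
    rw [map_zero]
    refine Prod.ext (α := (chi k 1).obj x) (β := (chi k 2).obj x) ?_ ?_
    · apply sc_injective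
      exact (map_zero sc).trans h1.1.symm
    · apply sc_injective
      exact (map_zero sc).trans h1.2.symm

lemma scx_exact : (scx k).Exact := by
  apply exact_of_eval
  intro x
  rw [ShortComplex.moduleCat_exact_iff]
  intro v hv
  exact exact_aux k x v hv

lemma scx_shortExact : (scx k).ShortExact where
  exact := scx_exact k
  mono_f := mono_mf k
  epi_g := epi_mg k

variable {k}

/-- every map from `P_c` to one of the four representations factors through `mf` -/
lemma factor : ∀ (j : Fin 4) (f : Pc k ⟶ chi k j),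
    ∃ g : dsum (chi k 1) (chi k 2) ⟶ chi k j, f = mf k ≫ g := by
  have key1 : ∀ j : Fin 4, le4 1 j → ∀ (f : Pc k ⟶ chi k j),
      ∃ g : dsum (chi k 1) (chi k 2) ⟶ chi k j, f = mf k ≫ g := by
    intro j hj f
    have h := eq_smul_inc (S := Ts (ob V4.c)) (T := T4 j) (hS := up_Ts _) (hT := up4 j)
      (root (ob V4.c)) root (fun x hx => T4_of_le hj x (c_sub_b hx)) f
    refine ⟨dfst _ _ ≫ (scal (root (ob V4.c)) f • inc4 hj), ?_⟩
    rw [← Category.assoc, mf_fst, Linear.comp_smul]
    conv_lhs => rw [h]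
    congr 1
  have key2 : ∀ j : Fin 4, le4 2 j → ∀ (f : Pc k ⟶ chi k j),
      ∃ g : dsum (chi k 1) (chi k 2) ⟶ chi k j, f = mf k ≫ g := by
    intro j hj f
    have h := eq_smul_inc (S := Ts (ob V4.c)) (T := T4 j) (hS := up_Ts _) (hT := up4 j)
      (root (ob V4.c)) root (fun x hx => T4_of_le hj x (c_sub_d hx)) f
    refine ⟨- (dsnd _ _ ≫ (scal (root (ob V4.c)) f • inc4 hj)), ?_⟩
    rw [Preadditive.comp_neg, ← Category.assoc, mf_snd, Linear.comp_smul, Preadditive.neg_comp,
      smul_neg, neg_neg]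
    conv_lhs => rw [h]
    congr 1
  intro j
  fin_cases j
  · intro f
    refine ⟨0, ?_⟩
    rw [comp_zero]
    refine eq_zero (S := Ts (ob V4.c)) (T := T4 0) (hS := up_Ts _) (hT := up4 0)
      (root (ob V4.c)) root (y := ob V4.c) ⟨𝟙 _⟩ ?_ f
    intro h
    cases Ts_a h
  · exact key1 1 (by decide)
  · exact key2 2 (by decide)
  · exact key1 3 (by decide)

lemma ext_zero (i j : Fin 4) : Subsingleton (Ext (chi k i) (chi k j) 1) := by
  by_cases hi : i = 3
  · subst hi
    refine subsingleton_of_forall_eq 0 fun x => ?_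
    have hp : Projective (dsum (chi k 1) (chi k 2)) := by
      have := proj (k := k) 1 (by decide)
      have := proj (k := k) 2 (by decide)
      exact proj_dsum _ _
    have h0 : (Ext.mk₀ (scx k).g).comp x (zero_add 1) = 0 :=
      Ext.eq_zero_of_projective (P := dsum (chi k 1) (chi k 2)) _
    obtain ⟨y, hy⟩ := Ext.contravariant_sequence_exact₃ (scx_shortExact k) _ x h0 (add_zero 1)
    obtain ⟨f, rfl⟩ := Ext.homEquiv₀.symm.surjective y
    obtain ⟨g, hg⟩ := factor j f
    rw [← hy]
    change (scx_shortExact k).extClass.comp (Ext.mk₀ f) _ = 0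
    rw [hg]
    have h5 : (scx_shortExact k).extClass.comp
        ((Ext.mk₀ (mf k)).comp (Ext.mk₀ g) (add_zero 0)) (add_zero 1) = 0 :=
      (scx_shortExact k).extClass_comp_assoc (Ext.mk₀ g) (h := add_zero 1)
    rw [Ext.mk₀_comp_mk₀] at h5
    exact h5
  · have := proj (k := k) i hi
    exact Ext.subsingleton_of_projective _ _ 0

end Pool.Agent.Helper1K1.HE
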