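import Pool.Agent.Helper1K1.HE.ExtD4

/-!
# The Hom-Ext quiver of the four representations
-/

set_option autoImplicit false

namespace Pool.Agent.Helper1K1.HE

open CategoryTheory Abelian Limits

variable (k : Type) [Field k]

lemma chi_finite (i : Fin 4) (x : Paths V4) : Module.Finite k ((chi k i).obj x) :=
  inferInstanceAs (Module.Finite k (sub k (T4 i) x))

lemma chi_exceptional (i : Fin 4) : IsExceptional (chi k i) :=
  ⟨chi_finite k i, indec i, ext_zero i i⟩

lemma chi_collection : IsExceptionalCollection (chi k) := by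
  refine ⟨1, fun i => chi_exceptional k i, fun i j hij => ⟨?_, ext_zero _ _⟩⟩
  have h : ¬ le4 i j := by
    revert hij i j
    decide
  exact subsingleton_of_forall_eq 0 fun f => hom_zero h f

variable {k}

lemma exists_hom {M N : Rep k V4} (x : EXT M N 0) : ∃ f : M ⟶ N, x = ofHom f := by
  obtain ⟨f, hf⟩ := Ext.homEquiv₀.symm.surjective (show Ext M N 0 from x)
  exact ⟨f, hf.symm⟩

lemma ofHom_zero {M N : Rep k V4} : ofHom (0 : M ⟶ N) = 0 := Ext.mk₀_zero M N

lemma ofHom_smul {M N : Rep k V4} (c : k) (f : M ⟶ N) : ofHom (c • f) = c • ofHom f :=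
  Ext.mk₀_smul c f

lemma ofHom_comp {M N L : Rep k V4} (f : M ⟶ N) (g : N ⟶ L) :
    comp (ofHom f) (ofHom g) (add_zero 0) = ofHom (f ≫ g) := Ext.mk₀_comp_mk₀ f g

lemma zero_comp' {M N L : Rep k V4} {a b n : ℕ} (g : EXT N L b) (h : a + b = n) :
    comp (0 : EXT M N a) g h = 0 :=
  Ext.zero_comp M (Y := N) (n := a) (show Ext N L b from g) n h

lemma comp_zero' {M N L : Rep k V4} {a b n : ℕ} (f : EXT M N a) (h : a + b = n) :
    comp f (0 : EXT N L b) h = 0 := Ext.comp_zero f L b n h

lemma smul_comp' {M N L : Rep k V4} {a b n : ℕ} (c : k) (f : EXT M N a) (g : EXT N L b)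
    (h : a + b = n) : comp (c • f) g h = c • comp f g h := Ext.smul_comp f g h c

lemma comp_smul' {M N L : Rep k V4} {a b n : ℕ} (c : k) (f : EXT M N a) (g : EXT N L b)
    (h : a + b = n) : comp f (c • g) h = c • comp f g h := Ext.comp_smul f g h c

lemma id_comp' {M N : Rep k V4} {n : ℕ} (f : EXT M N n) :
    comp (ofHom (𝟙 M)) f (zero_add n) = f := Ext.mk₀_id_comp f

lemma ofHom_eq_zero {M N : Rep k V4} {f : M ⟶ N} (h : ofHom f = 0) : f = 0 :=
  (Ext.mk₀_eq_zero_iff f).1 h

lemma ext0_zero {i j : Fin 4} (h : ¬ le4 i j) (x : EXT (chi k i) (chi k j) 0) : x = 0 := by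
  obtain ⟨f, rfl⟩ := exists_hom x
  rw [hom_zero h f, ofHom_zero]

lemma ext0_smul {i j : Fin 4} (h : le4 i j) (x : EXT (chi k i) (chi k j) 0) :
    ∃ c : k, x = c • ofHom (inc4 h) := by
  obtain ⟨f, rfl⟩ := exists_hom x
  obtain ⟨c, hc⟩ := hom_smul h f
  refine ⟨c, ?_⟩
  rw [hc, ofHom_smul]

lemma mk_inc_ne {i j : Fin 4} (h : le4 i j) :
    ofHom (inc4 h : chi k i ⟶ chi k j) ≠ 0 := fun h0 => inc4_ne h (ofHom_eq_zero h0)

lemma rad_self (i : Fin 4) : rad (chi k) i i 0 = ⊥ := by
  rw [rad, Submodule.span_eq_bot]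
  rintro x ⟨f, hf, rfl⟩
  have hii : le4 i i := Or.inl rfl
  obtain ⟨c, hc⟩ := hom_smul hii f
  by_cases h0 : c = 0
  · rw [hc, h0, zero_smul, ofHom_zero]
  · exfalso
    apply hf
    rw [hc, inc4_self]
    refine ⟨⟨c⁻¹ • 𝟙 _, ?_, ?_⟩⟩
    · rw [Linear.smul_comp, Linear.comp_smul, Category.comp_id, smul_smul, mul_inv_cancel₀ h0,
        one_smul]
    · rw [Linear.smul_comp, Linear.comp_smul, Category.comp_id, smul_smul, inv_mul_cancel₀ h0,
        one_smul]

lemma le4_antisymm {i j : Fin 4} (h : le4 i j) (h' : le4 j i) : i = j := by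
  revert i j
  decide

lemma mem_rad {i j : Fin 4} (h : le4 i j) (hij : i ≠ j) :
    ofHom (inc4 h : chi k i ⟶ chi k j) ∈ rad (chi k) i j 0 := by
  refine Submodule.subset_span ⟨inc4 h, ?_, rfl⟩
  intro hiso
  have h1 : inv (inc4 h : chi k i ⟶ chi k j) = 0 := hom_zero (fun h' => hij (le4_antisymm h h')) _
  have h2 := IsIso.hom_inv_id (inc4 h : chi k i ⟶ chi k j)
  rw [h1, comp_zero] at h2
  apply inc4_ne (k := k) h
  rw [← Category.id_comp (inc4 h : chi k i ⟶ chi k j), ← h2, zero_comp]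

lemma rad_top {i j : Fin 4} (hij : i ≠ j) : rad (chi k) i j 0 = ⊤ := by
  rw [eq_top_iff]
  intro x _
  by_cases h : le4 i j
  · obtain ⟨c, rfl⟩ := ext0_smul h x
    exact Submodule.smul_mem _ _ (mem_rad h hij)
  · rw [ext0_zero h x]
    exact Submodule.zero_mem _

/-- the covering relation -/
def cov (i j : Fin 4) : Prop := (i = 0 ∧ j = 1) ∨ (i = 0 ∧ j = 2) ∨ (i = 1 ∧ j = 3) ∨ (i = 2 ∧ j = 3)

instance (i j : Fin 4) : Decidable (cov i j) := inferInstanceAs (Decidable (_ ∨ _ ∨ _ ∨ _))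

lemma cov_le {i j : Fin 4} (h : cov i j) : le4 i j := by
  revert i j
  decide

lemma cov_ne {i j : Fin 4} (h : cov i j) : i ≠ j := by
  revert i j
  decide

/-- every element of the radical between `i` and `j` vanishes unless `i < j` -/
lemma rad_zero {i j : Fin 4} (h : i = j ∨ ¬ le4 i j) {x : EXT (chi k i) (chi k j) 0}
    (hx : x ∈ rad (chi k) i j 0) : x = 0 := by
  rcases h with h | h
  · subst h
    rw [rad_self] at hx
    exact (Submodule.mem_bot k).1 hx
  · exact ext0_zero h x

lemma aux1 : ∀ i j l : Fin 4, (cov i j ∨ i = j ∨ ¬ le4 i j) →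
    ((i = l ∨ ¬ le4 i l) ∨ (l = j ∨ ¬ le4 l j)) := by
  decide

lemma aux2 : ∀ i j : Fin 4, ¬ cov i j → i ≠ j → le4 i j → (i = 0 ∧ j = 3) := by
  decide

lemma radSq_bot {i j : Fin 4} (h : cov i j ∨ i = j ∨ ¬ le4 i j) : radSq (chi k) i j 0 = ⊥ := by
  rw [radSq, Submodule.span_eq_bot]
  rintro x ⟨l, a, b, hab, f, hf, g, hg, rfl⟩
  obtain ⟨rfl, rfl⟩ : a = 0 ∧ b = 0 := by omega
  rcases aux1 i j l h with hl | hl
  · rw [rad_zero hl hf, zero_comp']
  · rw [rad_zero hl hg, comp_zero']

lemma radSq_03 : radSq (chi k) 0 3 0 = ⊤ := by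
  rw [eq_top_iff]
  intro x _
  obtain ⟨c, rfl⟩ := ext0_smul (show le4 0 3 by decide) x
  refine Submodule.smul_mem _ _ (Submodule.subset_span ⟨1, 0, 0, rfl, _, mem_rad
    (show le4 0 1 by decide) (by decide), _, mem_rad (show le4 1 3 by decide) (by decide), ?_⟩)
  rw [ofHom_comp, inc4_comp _ _ (show le4 0 3 by decide)]

/-- A presentation of the Hom-Ext quiver of the four representations. -/
noncomputable def pres : HomExtQuiver (chi k) where
  H i j := PLift (cov i j)
  E _ _ := PEmpty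
  h _ _ a := ofHom (inc4 (cov_le a.down))
  e _ _ a := a.elim
  h_basis i j := by
    constructor
    · by_cases h : cov i j
      · have : Unique (PLift (cov i j)) := ⟨⟨⟨h⟩⟩, fun _ => Subsingleton.elim _ _⟩
        rw [linearIndependent_unique_iff]
        rw [Ne, Submodule.mkQ_apply, Submodule.Quotient.mk_eq_zero, radSq_bot (Or.inl h)]
        intro h0
        exact mk_inc_ne _ ((Submodule.mem_bot k).1 h0)
      · have : IsEmpty (PLift (cov i j)) := ⟨fun a => h a.down⟩
        exact linearIndependent_empty_type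
    · by_cases h : cov i j
      · rw [radSq_bot (Or.inl h), sup_bot_eq, rad_top (cov_ne h), eq_top_iff]
        intro x _
        obtain ⟨c, rfl⟩ := ext0_smul (cov_le h) x
        exact Submodule.smul_mem _ _ (Submodule.subset_span ⟨⟨h⟩, rfl⟩)
      · have : IsEmpty (PLift (cov i j)) := ⟨fun a => h a.down⟩
        rw [Set.range_eq_empty, Submodule.span_empty, bot_sup_eq]
        by_cases h1 : i = j
        · subst h1
          rw [radSq_bot (Or.inr (Or.inl rfl)), rad_self]
        · by_cases h2 : le4 i j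
          · obtain ⟨rfl, rfl⟩ := aux2 i j h h1 h2
            rw [radSq_03, rad_top (by decide)]
          · apply le_antisymm
            · intro x _
              rw [ext0_zero h2 x]
              exact Submodule.zero_mem _
            · intro x _
              rw [ext0_zero h2 x]
              exact Submodule.zero_mem _
  e_basis i j := by
    have : Subsingleton (EXT (chi k i) (chi k j) 1) := ext_zero (k := k) i j
    exact ⟨linearIndependent_empty_type, Subsingleton.elim _ _⟩

lemma aux3 {V : Type*} [AddCommGroup V] [Module k V] {c d : k} (hd : d ≠ 0) (v : V) :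
    (1 : k) • c • v - (c / d) • d • v = 0 := by
  rw [smul_smul (c / d), div_mul_cancel₀ _ hd, one_smul, sub_self]

section nm

variable (P : HomExtQuiver (chi k))

lemma exists_arrow {i j : Fin 4} (h : cov i j) : ∃ a : P.H i j, ∃ c : k, c ≠ 0 ∧
    P.h i j a = c • ofHom (inc4 (cov_le h)) := by
  by_contra hcon
  push Not at hcon
  have h1 := (P.h_basis i j).2
  rw [radSq_bot (Or.inl h), sup_bot_eq, rad_top (cov_ne h)] at h1
  have h2 : Submodule.span k (Set.range (P.h i j)) = ⊥ := by
    rw [Submodule.span_eq_bot]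
    rintro x ⟨a, rfl⟩
    obtain ⟨c, hc⟩ := ext0_smul (cov_le h) (P.h i j a)
    by_cases h0 : c = 0
    · rw [hc, h0, zero_smul]
    · exact absurd hc (hcon a c h0)
  rw [h2] at h1
  have h3 : ofHom (inc4 (cov_le h) : chi k i ⟶ chi k j) ∈ (⊤ : Submodule k _) := trivial
  rw [← h1] at h3
  exact mk_inc_ne _ ((Submodule.mem_bot k).1 h3)

/-- a vertex -/
def vx (i : Fin 4) : P.Vertex := i

/-- a path of length two -/
def pth {i j l : Fin 4} (a : P.H i j) (b : P.H j l) :
    Quiver.Path (vx P i) (vx P l) :=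
  (Quiver.Path.nil.cons (show vx P i ⟶ vx P j from Sum.inl a)).cons
    (show vx P j ⟶ vx P l from Sum.inl b)

lemma pth_deg {i j l : Fin 4} (a : P.H i j) (b : P.H j l) : P.pathDeg (pth P a b) = 0 := rfl

lemma val_pth {i j l : Fin 4} (a : P.H i j) (b : P.H j l) (hij : le4 i j) (hjl : le4 j l)
    (hil : le4 i l) {c d : k}
    (ha : P.h i j a = c • ofHom (inc4 hij)) (hb : P.h j l b = d • ofHom (inc4 hjl)) :
    P.pathValIn 0 (pth P a b) = (c * d) • ofHom (inc4 hil : chi k i ⟶ chi k l) := by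
  have h1 : P.pathValIn 0 (pth P a b) =
    comp (comp (ofHom (𝟙 (chi k i))) (P.h i j a) (zero_add 0)) (P.h j l b) (zero_add 0) := rfl
  rw [h1, id_comp', ha, hb, smul_comp', comp_smul', ofHom_comp, smul_smul,
    inc4_comp _ _ hil]

lemma val1_pth {i j l : Fin 4} (a : P.H i j) (b : P.H j l) :
    P.pathValIn 1 (pth P a b) = 0 := rfl

lemma value_single {i j : P.Vertex} (n : ℕ) (p : Quiver.Path i j) (c : k) :
    P.value n (Finsupp.single p c) = c • P.pathValIn n p := by
  rw [HomExtQuiver.value, Finsupp.linearCombination_single]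

theorem not_monomial : ¬ P.IsMonomial := by
  rintro ⟨S, hS, hR⟩
  obtain ⟨a, ca, ha0, ha⟩ := exists_arrow P (show cov 0 1 by decide)
  obtain ⟨b, cb, hb0, hb⟩ := exists_arrow P (show cov 1 3 by decide)
  obtain ⟨a', ca', ha0', ha'⟩ := exists_arrow P (show cov 0 2 by decide)
  obtain ⟨b', cb', hb0', hb'⟩ := exists_arrow P (show cov 2 3 by decide)
  set p := pth P a b with hp
  set q := pth P a' b' with hq
  have hpq : q ≠ p := by
    intro h
    have h1 : vx P 2 = vx P 1 := Quiver.Path.obj_eq_of_cons_eq_cons h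
    exact absurd h1 (by decide : (2 : Fin 4) ≠ 1)
  have vp : P.pathValIn 0 p = (ca * cb) • ofHom (inc4 (show le4 0 3 by decide)) :=
    val_pth P a b _ _ _ ha hb
  have vq : P.pathValIn 0 q = (ca' * cb') • ofHom (inc4 (show le4 0 3 by decide)) :=
    val_pth P a' b' _ _ _ ha' hb'
  have hmem : Finsupp.single p (1 : k) - Finsupp.single q (ca * cb / (ca' * cb')) ∈
      P.R (vx P 0) (vx P 3) := by
    refine ⟨?_, ?_⟩
    · change P.value 0 _ = 0
      rw [map_sub, value_single, value_single, vp, vq]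
      exact aux3 (mul_ne_zero ha0' hb0') _
    · change P.value 1 _ = 0
      rw [map_sub, value_single, value_single, val1_pth, val1_pth, smul_zero, smul_zero, sub_self]
  set s : Set (Quiver.Path (vx P 0) (vx P 3)) := {w | ∃ (i' j' : P.Vertex)
    (q : Quiver.Path (vx P 0) i') (p : Quiver.Path i' j')
    (r : Quiver.Path j' (vx P 3)), p ∈ S i' j' ∧ w = q.comp (p.comp r)} with hs
  have hR' : P.R (vx P 0) (vx P 3) = Finsupp.supported k k s := by
    rw [hR, Finsupp.supported_eq_span_single]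
    congr 1
    ext x
    constructor
    · rintro ⟨i', j', q, p, r, h1, h2⟩
      exact ⟨_, ⟨i', j', q, p, r, h1, rfl⟩, h2.symm⟩
    · rintro ⟨w, ⟨i', j', q, p, r, h1, rfl⟩, h2⟩
      exact ⟨i', j', q, p, r, h1, h2.symm⟩
  rw [hR', Finsupp.mem_supported] at hmem
  have hps : p ∈ s := by
    apply hmem
    rw [Finset.mem_coe, Finsupp.mem_support_iff, Finsupp.sub_apply, Finsupp.single_eq_same,
      Finsupp.single_eq_of_ne (Ne.symm hpq), sub_zero]
    exact one_ne_zero
  have h5 : Finsupp.single p (1 : k) ∈ P.R (vx P 0) (vx P 3) := by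
    rw [hR', Finsupp.mem_supported]
    intro w hw
    rw [Finset.mem_coe] at hw
    have := Finsupp.support_single_subset hw
    rw [Finset.mem_singleton] at this
    rw [this]
    exact hps
  have h6 : P.value 0 (Finsupp.single p (1 : k)) = 0 := h5.1
  rw [value_single, one_smul, vp] at h6
  rcases smul_eq_zero.1 h6 with h7 | h7
  · exact mul_ne_zero ha0 hb0 h7
  · exact mk_inc_ne _ h7

end nm

end Pool.Agent.Helper1K1.HE
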