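import Pool.Agent.Helper1K1.HE.Defs

/-!
# Thin representations

For a set `S` of objects of a category `J` which contains the targets of all morphisms from members
of `S`, the functor `thin k S` is one-dimensional at the members of `S` and zero elsewhere.
-/

set_option autoImplicit false

namespace Pool.Agent.Helper1K1.HE

open CategoryTheory Abelian Limits

section
variable (k : Type) [Field k] {J : Type}

/-- the space at `x` -/
def sub (S : J → Prop) (x : J) : Submodule k k where
  carrier := {v | ¬ S x → v = 0}
  add_mem' := by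
    intro a b ha hb h
    rw [ha h, hb h, add_zero]
  zero_mem' := fun _ => rfl
  smul_mem' := by
    intro c a ha h
    rw [ha h, smul_zero]

variable {k}

lemma mem_sub {S : J → Prop} {x : J} {v : k} : v ∈ sub k S x ↔ (¬ S x → v = 0) := Iff.rfl

lemma sub_le {S T : J → Prop} {x y : J} (h : S x → T y) : sub k S x ≤ sub k T y :=
  fun _ hv hT => hv fun hS => hT (h hS)

lemma mem_sub_of {S : J → Prop} {x : J} (h : S x) (v : k) : v ∈ sub k S x := fun hn => absurd h hn

end

variable (k : Type) [Field k] {J : Type} [Category.{0} J]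

/-- closed under morphisms -/
def Up (S : J → Prop) : Prop := ∀ x y : J, (x ⟶ y) → S x → S y

/-- the thin representation -/
def thin (S : J → Prop) (hS : Up S) : J ⥤ ModuleCat.{0} k where
  obj x := ModuleCat.of k (sub k S x)
  map {x y} f := ModuleCat.ofHom (Submodule.inclusion (sub_le (hS x y f)))
  map_id x := by ext v; rfl
  map_comp f g := by ext v; rfl

variable {k}

/-- the element of `thin` at a member -/
def el {S : J → Prop} (hS : Up S) {x : J} (h : S x) (v : k) : (thin k S hS).obj x :=
  (⟨v, mem_sub_of h v⟩ : sub k S x)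

/-- the scalar of an element -/
def sc {S : J → Prop} {hS : Up S} {x : J} : (thin k S hS).obj x →ₗ[k] k := (sub k S x).subtype

lemma sc_injective {S : J → Prop} {hS : Up S} {x : J} :
    Function.Injective (sc : (thin k S hS).obj x →ₗ[k] k) := Subtype.val_injective

lemma sc_map {S : J → Prop} {hS : Up S} {x y : J} (f : x ⟶ y) (v : (thin k S hS).obj x) :
    sc ((thin k S hS).map f v) = sc v := rfl

lemma sc_el {S : J → Prop} (hS : Up S) {x : J} (h : S x) (v : k) : sc (el hS h v) = v := rfl

lemma sc_smul {S : J → Prop} {hS : Up S} {x : J} (a : k) (v : (thin k S hS).obj x) :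
    sc (a • v) = a * sc v := map_smul sc a v

lemma sc_add {S : J → Prop} {hS : Up S} {x : J} (v w : (thin k S hS).obj x) :
    sc (v + w) = sc v + sc w := map_add sc v w

lemma sc_zero_of {S : J → Prop} {hS : Up S} {x : J} (v : (thin k S hS).obj x) (h : ¬ S x) :
    sc v = 0 := Subtype.property (p := fun v => v ∈ sub k S x) v h

/-- the inclusions between thin representations -/
def inc {S T : J → Prop} (hS : Up S) (hT : Up T) (h : ∀ x, S x → T x) :
    thin k S hS ⟶ thin k T hT where
  app x := ModuleCat.ofHom (Submodule.inclusion (sub_le (h x)))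
  naturality x y f := by ext v; rfl

lemma sc_inc {S T : J → Prop} (hS : Up S) (hT : Up T) (h : ∀ x, S x → T x) {x : J}
    (v : (thin k S hS).obj x) : sc ((inc hS hT h).app x v) = sc v := rfl

/-- `a` is a sink which is reached from everywhere. -/
def Root (a : J) : Prop := ∀ x : J, Nonempty (x ⟶ a)

/-- the scalar of a morphism -/
def scal {S T : J → Prop} {hS : Up S} {hT : Up T} {a : J} (ha : S a)
    (f : thin k S hS ⟶ thin k T hT) : k := sc (f.app a (el hS ha 1))

lemma el_eq {S : J → Prop} {hS : Up S} {a : J} (ha : S a) (v : (thin k S hS).obj a) :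
    v = sc v • el hS ha 1 := by
  apply sc_injective
  rw [sc_smul, sc_el, mul_one]

lemma sc_app {S T : J → Prop} {hS : Up S} {hT : Up T} {a : J} (ha : S a) (hr : Root a)
    (f : thin k S hS ⟶ thin k T hT) {x : J} (v : (thin k S hS).obj x) :
    sc (f.app x v) = sc v * scal ha f := by
  obtain ⟨p⟩ := hr x
  have h1 := congrArg (fun g => g v) (congrArg ModuleCat.Hom.hom (f.naturality p))
  simp only [ModuleCat.hom_comp, LinearMap.comp_apply] at h1
  have h2 : sc (f.app x v) = sc (f.app a ((thin k S hS).map p v)) := by
    rw [← sc_map p (f.app x v)]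
    exact congrArg sc h1.symm
  rw [h2, el_eq ha ((thin k S hS).map p v), sc_map, map_smul, sc_smul]
  rfl

lemma eq_smul_inc {S T : J → Prop} {hS : Up S} {hT : Up T} {a : J} (ha : S a) (hr : Root a)
    (h : ∀ x, S x → T x) (f : thin k S hS ⟶ thin k T hT) : f = scal ha f • inc hS hT h := by
  ext x v
  apply sc_injective
  rw [sc_app ha hr]
  change _ = sc (scal ha f • (inc hS hT h).app x v)
  rw [sc_smul, sc_inc, mul_comm]

lemma eq_zero {S T : J → Prop} {hS : Up S} {hT : Up T} {a : J} (ha : S a) (hr : Root a)
    {y : J} (hy : S y) (hy' : ¬ T y) (f : thin k S hS ⟶ thin k T hT) : f = 0 := by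
  have h1 := sc_app ha hr f (el hS hy 1)
  rw [sc_zero_of _ hy', sc_el, one_mul] at h1
  ext x v
  apply sc_injective
  rw [sc_app ha hr, ← h1, mul_zero]
  exact (map_zero sc).symm

lemma scal_inc {S T : J → Prop} (hS : Up S) (hT : Up T) (h : ∀ x, S x → T x) {a : J} (ha : S a) :
    scal ha (inc (k := k) hS hT h) = 1 := rfl

lemma scal_zero {S T : J → Prop} (hS : Up S) (hT : Up T) {a : J} (ha : S a) :
    scal ha (0 : thin k S hS ⟶ thin k T hT) = 0 := map_zero sc

lemma inc_ne_zero {S T : J → Prop} (hS : Up S) (hT : Up T) (h : ∀ x, S x → T x) {a : J}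
    (ha : S a) : inc (k := k) hS hT h ≠ 0 := by
  intro h0
  have := scal_inc (k := k) hS hT h ha
  rw [h0, scal_zero] at this
  exact zero_ne_one this

lemma inc_comp {S T U : J → Prop} (hS : Up S) (hT : Up T) (hU : Up U) (h : ∀ x, S x → T x)
    (h' : ∀ x, T x → U x) : inc (k := k) hS hT h ≫ inc hT hU h' =
      inc hS hU (fun x hx => h' x (h x hx)) := by
  ext x v; rfl

lemma inc_self {S : J → Prop} (hS : Up S) (h : ∀ x, S x → S x) : inc (k := k) hS hS h = 𝟙 _ := by
  ext x v; rfl

/-- Thin representations with a root are indecomposable. -/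
lemma indecomposable_thin {S : J → Prop} (hS : Up S) {a : J} (ha : S a) (hr : Root a) :
    Indecomposable (thin k S hS) := by
  have hid : ∀ f : thin k S hS ⟶ thin k S hS, f = scal ha f • 𝟙 _ := by
    intro f
    have := eq_smul_inc ha hr (fun _ h => h) f
    rwa [inc_self] at this
  have hne : (𝟙 (thin k S hS)) ≠ 0 := by
    rw [← inc_self hS (fun _ h => h)]
    exact inc_ne_zero hS hS _ ha
  constructor
  · intro h0
    exact hne (h0.eq_of_src _ _)
  · intro Y Z e
    set p : thin k S hS ⟶ thin k S hS := e.hom ≫ biprod.fst ≫ biprod.inl ≫ e.inv with hp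
    have hpp : p ≫ p = p := by
      rw [hp]
      simp
    have h1 := hid p
    set c := scal ha p with hc
    have h2 : (c * c - c) • (𝟙 (thin k S hS)) = 0 := by
      rw [sub_smul, mul_smul]
      have : p ≫ p = c • (c • 𝟙 (thin k S hS)) := by
        rw [h1, Linear.smul_comp, Category.id_comp]
      rw [← this, hpp, ← h1, sub_self]
    have h3 : c * c - c = 0 := by
      by_contra hcon
      apply hne
      have h4 := congrArg (fun f => (c * c - c)⁻¹ • f) h2
      simp only [smul_zero] at h4
      rwa [smul_smul, inv_mul_cancel₀ hcon, one_smul] at h4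
    have h4 : c = 0 ∨ c = 1 := by
      have : c * (c - 1) = 0 := by linear_combination h3
      rcases mul_eq_zero.1 this with h | h
      · exact Or.inl h
      · exact Or.inr (sub_eq_zero.1 h)
    rcases h4 with h4 | h4
    · left
      rw [h4, zero_smul] at h1
      have h5 : 𝟙 Y = 0 := by
        have : 𝟙 Y = biprod.inl ≫ e.inv ≫ p ≫ e.hom ≫ biprod.fst := by
          rw [hp]; simp
        rw [this, h1]; simp
      exact (IsZero.iff_id_eq_zero Y).2 h5
    · right
      rw [h4, one_smul] at h1
      have h5 : 𝟙 Z = 0 := by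
        have h6 : 𝟙 Z = biprod.inr ≫ e.inv ≫ (𝟙 _) ≫ e.hom ≫ biprod.snd := by simp
        rw [h6, ← h1, hp]; simp
      exact (IsZero.iff_id_eq_zero Z).2 h5

/-- The thin representation of the targets of the morphisms from `x` is projective, if there is
at most one morphism between any two objects. -/
lemma projective_thin [Quiver.IsThin J] (x : J) (hS : Up (fun z : J => Nonempty (x ⟶ z))) :
    Projective (thin k (fun z : J => Nonempty (x ⟶ z)) hS) := by
  classical
  constructor
  intro E X f e he
  have hx : Nonempty (x ⟶ x) := ⟨𝟙 x⟩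
  have hex : Epi (e.app x) := inferInstance
  obtain ⟨y', hy'⟩ := (ModuleCat.epi_iff_surjective (e.app x)).1 hex (f.app x (el hS hx 1))
  let L : ∀ z, (thin k (fun z : J => Nonempty (x ⟶ z)) hS).obj z →ₗ[k] E.obj z := fun z =>
    if h : Nonempty (x ⟶ z) then
      LinearMap.comp (LinearMap.toSpanSingleton k _ (E.map h.some y')) sc else 0
  have hL : ∀ z (h : Nonempty (x ⟶ z)) v, L z v = sc v • E.map h.some y' := by
    intro z h v
    simp only [L, dif_pos h]
    rfl
  refine ⟨{ app := fun z => ModuleCat.ofHom (L z), naturality := ?_ }, ?_⟩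
  · intro z w g
    ext v
    change L w ((thin k (fun z : J => Nonempty (x ⟶ z)) hS).map g v) = E.map g (L z v)
    by_cases hz : Nonempty (x ⟶ z)
    · have hw : Nonempty (x ⟶ w) := ⟨hz.some ≫ g⟩
      have h1 : hw.some = hz.some ≫ g := Subsingleton.elim _ _
      rw [hL w hw, hL z hz, map_smul, h1, E.map_comp]
      rfl
    · have hv : v = 0 := sc_injective (by
        rw [sc_zero_of v hz, map_zero])
      rw [hv, map_zero, map_zero, map_zero, map_zero]
  · ext z v
    change e.app z (L z v) = f.app z v
    by_cases hz : Nonempty (x ⟶ z)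
    · have h1 := congrArg (fun g => g y') (congrArg ModuleCat.Hom.hom (e.naturality hz.some))
      simp only [ModuleCat.hom_comp, LinearMap.comp_apply] at h1
      have h2 := congrArg (fun g => g (el hS hx 1))
        (congrArg ModuleCat.Hom.hom (f.naturality hz.some))
      simp only [ModuleCat.hom_comp, LinearMap.comp_apply] at h2
      have h3 : (thin k (fun z : J => Nonempty (x ⟶ z)) hS).map hz.some (el hS hx 1) =
          el hS hz 1 := rfl
      rw [hL z hz, map_smul]
      conv_rhs => rw [el_eq hz v, map_smul, ← h3]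
      congr 1
      refine h1.trans (Eq.trans ?_ h2.symm)
      congr 1
    · have hv : v = 0 := sc_injective (by
        rw [sc_zero_of v hz, map_zero])
      rw [hv, map_zero, map_zero, map_zero]

end Pool.Agent.Helper1K1.HE
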